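import Pool.Agent.H379R3.CDQ.Stmts
import Pool.Agent.H379R3.CDQ.All

/-!
# Two quadrics in P^5 over a field of cohomological dimension one, without rational point
-/

set_option autoImplicit false

namespace Pool.Agent.Results.MP_0f87c6_ag.CdOneNoPoint

open Pool.Agent.H379R3.CDQ

/-- There are a field `k` of characteristic two with `cd(k) = 1` (vanishing of the continuous
cohomology of `Gal(k_s/k)` in degrees `> 1` for all discrete torsion modules, nonvanishing in
degree one for some) and two quadratic forms `F`, `G` in six variables over `k` such that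
`{F = G = 0}` in `P^5` is a smooth complete intersection without `k`-rational point. -/
theorem result : ∃ (k : Type) (_ : Field k) (_ : CharP k 2),
    (CdLE (GG k) 1 ∧ ¬ CdLE (GG k) 0) ∧
    ∃ F G : MvPolynomial (Fin 6) k, SmoothCI k F G ∧
      ∀ v : Fin 6 → k, v ≠ 0 → ¬ (MvPolynomial.eval v F = 0 ∧ MvPolynomial.eval v G = 0) :=
  main

end Pool.Agent.Results.MP_0f87c6_ag.CdOneNoPoint
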